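import Pool.Agent.Helper78.TR.Defs

/-! TR-C (project TR): the remainders of the auxiliary sifting problem, from TR-A and TR-B. -/

set_option autoImplicit false

namespace Pool.Agent.Helper78.TR

open Finset Filter Pool.Agent.Helper10 Pool.Agent.Helper10.P5 Pool.Agent.Helper10.P4
  Pool.Agent.Helper10.P3 Pool.Agent.Helper10.SQ Pool.Agent.Helper10.EN

/-- The abstract sum. -/
theorem errK_mpart (k m Q : ℕ) (T : ℝ) (hT : 0 ≤ T) (hm : 0 < m) (hm10 : m.Coprime 10)
    (mq : ℕ → ℕ) (hmq : ∀ q, 0 < q → 0 < mq q ∧ mq q ∣ q) (R r' : ℕ → ℝ) (hR : ∀ q, 0 ≤ R q)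
    (hr : ∀ q, 1 ≤ q → q ≤ Q → q.Coprime 10 → r' q ≤ T / mq q * R (m * (q / mq q))) :
    errK k r' Q ≤ T * (hsum k Q * errK k R (m * Q)) := by
  classical
  set S : Finset ℕ := (Icc 1 Q).filter (fun q => q.Coprime 10) with hS
  have hmemS : ∀ q, q ∈ S ↔ (1 ≤ q ∧ q ≤ Q) ∧ q.Coprime 10 := fun q => by
    rw [hS, Finset.mem_filter, Finset.mem_Icc]
  -- the pairs
  set G : ℕ × ℕ → ℝ := fun x => ((tau x.1 : ℝ)) ^ k / x.1 * T * (((tau x.2 : ℝ)) ^ k * R (m * x.2))
    with hG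
  have hG0 : ∀ x, 0 ≤ G x := fun x => by
    have := hR (m * x.2)
    simp only [hG]
    positivity
  have h1 : errK k r' Q ≤ ∑ q ∈ S, G (mq q, q / mq q) := by
    unfold errK
    refine Finset.sum_le_sum fun q hq => ?_
    have hq' := (hmemS q).1 hq
    obtain ⟨hm1, hm2⟩ := hmq q (by omega)
    have h2 := hr q hq'.1.1 hq'.1.2 hq'.2
    have h3 : (tau q : ℝ) ≤ tau (mq q) * tau (q / mq q) := by
      have h4 := tau_mul_le (mq q) (q / mq q)
      rw [Nat.mul_div_cancel' hm2] at h4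
      exact_mod_cast h4
    have h5 : 0 ≤ T / mq q * R (m * (q / mq q)) := mul_nonneg (by positivity) (hR _)
    calc ((tau q : ℝ)) ^ k * r' q ≤ ((tau q : ℝ)) ^ k * (T / mq q * R (m * (q / mq q))) :=
          mul_le_mul_of_nonneg_left h2 (by positivity)
      _ ≤ ((tau (mq q) : ℝ) * tau (q / mq q)) ^ k * (T / mq q * R (m * (q / mq q))) :=
          mul_le_mul_of_nonneg_right (pow_le_pow_left₀ (by positivity) h3 k) h5
      _ = G (mq q, q / mq q) := by
          simp only [hG]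
          rw [mul_pow]
          ring
  have h2 : ∑ q ∈ S, G (mq q, q / mq q) = ∑ x ∈ S.image (fun q => (mq q, q / mq q)), G x := by
    rw [Finset.sum_image]
    intro x hx y hy hxy
    have hx' := (hmemS x).1 hx
    have hy' := (hmemS y).1 hy
    simp only [Prod.mk.injEq] at hxy
    have e1 := Nat.mul_div_cancel' (hmq x (by omega)).2
    have e2 := Nat.mul_div_cancel' (hmq y (by omega)).2
    calc x = mq x * (x / mq x) := e1.symm
      _ = mq y * (y / mq y) := by rw [hxy.2, hxy.1]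
      _ = y := e2
  have h3 : ∑ x ∈ S.image (fun q => (mq q, q / mq q)), G x ≤ ∑ x ∈ Icc 1 Q ×ˢ S, G x := by
    refine Finset.sum_le_sum_of_subset_of_nonneg ?_ fun x _ _ => hG0 x
    intro x hx
    obtain ⟨q, hq, rfl⟩ := Finset.mem_image.1 hx
    have hq' := (hmemS q).1 hq
    obtain ⟨hm1, hm2⟩ := hmq q (by omega)
    have hle := Nat.le_of_dvd (by omega) hm2
    rw [Finset.mem_product, Finset.mem_Icc]
    refine ⟨⟨hm1, by omega⟩, (hmemS _).2 ⟨⟨Nat.div_pos hle hm1, (Nat.div_le_self _ _).trans hq'.1.2⟩, ?_⟩⟩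
    exact Nat.Coprime.coprime_dvd_left (Nat.div_dvd_of_dvd hm2) hq'.2
  have h4 : ∑ x ∈ Icc 1 Q ×ˢ S, G x =
      T * (hsum k Q * ∑ q ∈ S, ((tau q : ℝ)) ^ k * R (m * q)) := by
    rw [Finset.sum_product]
    unfold hsum
    rw [Finset.sum_mul, Finset.mul_sum]
    refine Finset.sum_congr rfl fun x _ => ?_
    simp only [hG]
    rw [← Finset.mul_sum]
    ring
  have h5 : ∑ q ∈ S, ((tau q : ℝ)) ^ k * R (m * q) ≤ errK k R (m * Q) := by
    calc ∑ q ∈ S, ((tau q : ℝ)) ^ k * R (m * q) ≤ ∑ q ∈ S, ((tau (m * q) : ℝ)) ^ k * R (m * q) := by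
          refine Finset.sum_le_sum fun q hq => ?_
          have hq' := (hmemS q).1 hq
          refine mul_le_mul_of_nonneg_right (pow_le_pow_left₀ (by positivity) ?_ k) (hR _)
          have : tau q ≤ tau (m * q) := by
            unfold tau
            refine Finset.card_le_card (Nat.divisors_subset_of_dvd ?_ (Dvd.intro_left m rfl))
            exact Nat.mul_ne_zero hm.ne' (by omega)
          exact_mod_cast this
      _ = ∑ q ∈ S.image (fun q => m * q), ((tau q : ℝ)) ^ k * R q := by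
          rw [Finset.sum_image]
          intro x _ y _ hxy
          exact Nat.eq_of_mul_eq_mul_left hm hxy
      _ ≤ errK k R (m * Q) := by
          unfold errK
          refine Finset.sum_le_sum_of_subset_of_nonneg ?_ fun q _ _ => mul_nonneg (by positivity) (hR q)
          intro q hq
          obtain ⟨y, hy, rfl⟩ := Finset.mem_image.1 hq
          have hy' := (hmemS y).1 hy
          rw [Finset.mem_filter, Finset.mem_Icc]
          exact ⟨⟨Nat.mul_pos hm (by omega), Nat.mul_le_mul_left m hy'.1.2⟩,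
            Nat.Coprime.mul_left hm10 hy'.2⟩
  have h6 : 0 ≤ hsum k Q := by
    unfold hsum
    exact Finset.sum_nonneg fun _ _ => by positivity
  calc errK k r' Q ≤ ∑ x ∈ Icc 1 Q ×ˢ S, G x := h1.trans (h2.le.trans h3)
    _ = T * (hsum k Q * ∑ q ∈ S, ((tau q : ℝ)) ^ k * R (m * q)) := h4
    _ ≤ T * (hsum k Q * errK k R (m * Q)) :=
        mul_le_mul_of_nonneg_left (mul_le_mul_of_nonneg_left h5 h6) hT

/-- TR-C from TR-A and TR-B. -/
theorem errA_of
    (hA : ∀ (n M r : ℕ), 1 ≤ n → 0 < M →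
      |(((EP n).filter (fun e => FPal n e ≡ r [MOD M])).card : ℝ) - 4 * 10 ^ n / M| ≤ rP n M)
    (hB1 : ∀ (m q : ℕ), 0 < m → 0 < q → 0 < mp m q ∧ mp m q ∣ q ∧ (q / mp m q).Coprime m)
    (hB2 : ∀ (m N q t : ℕ), 0 < m → N.Coprime m → 0 < q → 0 < t →
      (q ∣ N * mp m t ↔ q / mp m q ∣ N ∧ mp m q ∣ t))
    (hB4 : ∀ (Q q1 : ℕ), 0 < q1 → q1 ≤ Q →
      (((Icc 1 Q.factorial).filter (fun t => q1 ∣ t)).card : ℝ) = (Q.factorial : ℝ) / q1)
    (k n m a Q : ℕ) (hn : 1 ≤ n) (hm : 0 < m) (hm10 : m.Coprime 10) (ha : a.Coprime m) :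
    errK k (rA n m a Q.factorial) Q ≤
      (Q.factorial : ℝ) * (hsum k Q * errK k (rP n) (m * Q)) := by
  classical
  refine errK_mpart k m Q (Q.factorial : ℝ) (Nat.cast_nonneg _) hm hm10 (mp m)
    (fun q hq => ⟨(hB1 m q hm hq).1, (hB1 m q hm hq).2.1⟩) (rP n) _ (SX_pal n hn).r0 ?_
  intro q hq1 hqQ hq10
  obtain ⟨hp0, hpd, hpc⟩ := hB1 m q hm (by omega)
  set q1 : ℕ := mp m q with hq1d
  set q2 : ℕ := q / q1 with hq2d
  have hqq : q1 * q2 = q := Nat.mul_div_cancel' hpd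
  have hq2 : 0 < q2 := by
    rcases Nat.eq_zero_or_pos q2 with h | h
    · rw [h] at hqq; omega
    · exact h
  have hq1Q : q1 ≤ Q := (Nat.le_of_dvd (by omega) hpd).trans hqQ
  -- the class modulo `m * q2`
  obtain ⟨r, hr1, hr2⟩ := Nat.chineseRemainder (hpc.symm : m.Coprime q2) a 0
  have hcls : (EC n m a).filter (fun e => q2 ∣ FPal n e) =
      (EP n).filter (fun e => FPal n e ≡ r [MOD m * q2]) := by
    unfold EC
    rw [Finset.filter_filter]
    refine Finset.filter_congr fun e _ => ?_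
    rw [← Nat.modEq_and_modEq_iff_modEq_mul hpc.symm]
    constructor
    · rintro ⟨h1, h2⟩
      exact ⟨h1.trans hr1.symm, ((Nat.modEq_zero_iff_dvd.2 h2).trans hr2.symm)⟩
    · rintro ⟨h1, h2⟩
      exact ⟨h1.trans hr1, Nat.modEq_zero_iff_dvd.1 (h2.trans hr2)⟩
  have hprod : (EA n m a Q.factorial).filter (fun x => q ∣ FA n m x) =
      ((EC n m a).filter (fun e => q2 ∣ FPal n e)) ×ˢ
        ((Icc 1 Q.factorial).filter (fun t => q1 ∣ t)) := by
    ext x
    unfold EA FA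
    rw [Finset.mem_filter, Finset.mem_product, Finset.mem_product, Finset.mem_filter,
      Finset.mem_filter]
    constructor
    · rintro ⟨⟨h1, h2⟩, h3⟩
      have hco : (FPal n x.1).Coprime m := by
        have h4 : FPal n x.1 ≡ a [MOD m] := (Finset.mem_filter.1 h1).2
        have h5 : (FPal n x.1).gcd m = a.gcd m := h4.gcd_eq
        unfold Nat.Coprime
        rw [h5]
        exact ha
      have h6 := (hB2 m (FPal n x.1) q x.2 hm hco (by omega)
        (by have := (Finset.mem_Icc.1 h2).1; omega)).1 h3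
      exact ⟨⟨h1, h6.1⟩, ⟨h2, h6.2⟩⟩
    · rintro ⟨⟨h1, h3⟩, ⟨h2, h4⟩⟩
      have hco : (FPal n x.1).Coprime m := by
        have h4 : FPal n x.1 ≡ a [MOD m] := (Finset.mem_filter.1 h1).2
        have h5 : (FPal n x.1).gcd m = a.gcd m := h4.gcd_eq
        unfold Nat.Coprime
        rw [h5]
        exact ha
      exact ⟨⟨h1, h2⟩, (hB2 m (FPal n x.1) q x.2 hm hco (by omega)
        (by have := (Finset.mem_Icc.1 h2).1; omega)).2 ⟨h3, h4⟩⟩
  have hcard : (((EA n m a Q.factorial).filter (fun x => q ∣ FA n m x)).card : ℝ) =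
      (((EP n).filter (fun e => FPal n e ≡ r [MOD m * q2])).card : ℝ) *
        ((Q.factorial : ℝ) / q1) := by
    rw [hprod, Finset.card_product, hcls]
    push_cast
    rw [hB4 Q q1 hp0 hq1Q]
  have hmR : (0 : ℝ) < m := by exact_mod_cast hm
  have hq1R : (0 : ℝ) < q1 := by exact_mod_cast hp0
  have hq2R : (0 : ℝ) < q2 := by exact_mod_cast hq2
  have hX : XA n m Q.factorial / q = 4 * 10 ^ n / ((m * q2 : ℕ) : ℝ) * ((Q.factorial : ℝ) / q1) := by
    unfold XA
    have : (q : ℝ) = q1 * q2 := by exact_mod_cast hqq.symm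
    rw [this]
    push_cast
    field_simp
  show |(((EA n m a Q.factorial).filter (fun x => q ∣ FA n m x)).card : ℝ) - XA n m Q.factorial / q| ≤ _
  rw [hcard, hX, ← sub_mul, abs_mul, abs_of_nonneg (by positivity : (0 : ℝ) ≤ (Q.factorial : ℝ) / q1),
    mul_comm]
  exact mul_le_mul_of_nonneg_left (hA n (m * q2) r hn (Nat.mul_pos hm hq2)) (by positivity)

end Pool.Agent.Helper78.TR
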